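import Mathlib

/-!
Iterated function systems, attractors, basins, compatible metrics and Lipschitz constants.
-/

open Set Filter Topology

namespace Pool.Agent.W_b8546e_h58

/-- `ℝ^n` with the Euclidean metric -/
abbrev E (n : ℕ) := EuclideanSpace ℝ (Fin n)

variable {X : Type*} [MetricSpace X]

/-- an iterated function system: a nonempty finite set of continuous maps -/
structure IsIFS (F : Set (X → X)) : Prop where
  ne : F.Nonempty
  fin : F.Finite
  cont : ∀ f ∈ F, Continuous f

/-- `F(B)`, the union of the sets `f(B)`, `f ∈ F` -/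
def step (F : Set (X → X)) (B : Set X) : Set X := ⋃ f ∈ F, f '' B

/-- `F^k(B) → A` in the Hausdorff metric for every nonempty compact set `B ⊆ U` -/
def Attracts (F : Set (X → X)) (A U : Set X) : Prop :=
  ∀ B : Set X, B.Nonempty → IsCompact B → B ⊆ U →
    Tendsto (fun k : ℕ => Metric.hausdorffDist ((step F)^[k] B) A) atTop (𝓝 0)

/-- the nonempty compact set `A` is an attractor of `F` -/
def IsAttractor (F : Set (X → X)) (A : Set X) : Prop :=
  A.Nonempty ∧ IsCompact A ∧ step F A = A ∧ ∃ U : Set X, IsOpen U ∧ A ⊆ U ∧ Attracts F A U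

/-- the basin of `A` -/
def basin (F : Set (X → X)) (A : Set X) : Set X :=
  ⋃₀ {U : Set X | IsOpen U ∧ A ⊆ U ∧ Attracts F A U}

/-- `d` is a metric on `X` which induces the topology of `X` -/
structure IsCompat (d : X → X → ℝ) : Prop where
  self : ∀ x, d x x = 0
  eq : ∀ x y, d x y = 0 → x = y
  symm : ∀ x y, d x y = d y x
  tri : ∀ x y z, d x z ≤ d x y + d y z
  top : ∀ s : Set X, IsOpen s ↔ ∀ x ∈ s, ∃ ε : ℝ, 0 < ε ∧ ∀ y, d x y < ε → y ∈ s

/-- the Lipschitz constant of `f` for `d`, in `[0, ∞]` -/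
noncomputable def Lip (f : X → X) (d : X → X → ℝ) : ENNReal :=
  ⨆ (x : X) (y : X) (_ : x ≠ y), ENNReal.ofReal (d (f x) (f y) / d x y)

end Pool.Agent.W_b8546e_h58
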