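import Pool.Agent.W_b8546e_h58.Real

/-!
The iterated function system.
-/

open Set Filter Topology

namespace Pool.Agent.W_b8546e_h58

variable {X : Type*} [MetricSpace X]

section basic

variable {F : Set (X → X)} {B : Set X}

omit [MetricSpace X] in
lemma mem_step {z : X} : z ∈ step F B ↔ ∃ f ∈ F, ∃ b ∈ B, f b = z := by
  unfold step
  simp only [mem_iUnion, mem_image, exists_prop]

lemma step_nonempty (hF : F.Nonempty) (hB : B.Nonempty) : (step F B).Nonempty := by
  obtain ⟨f, hf⟩ := hF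
  obtain ⟨b, hb⟩ := hB
  exact ⟨f b, mem_step.2 ⟨f, hf, b, hb, rfl⟩⟩

lemma iter_nonempty (hF : F.Nonempty) (hB : B.Nonempty) (k : ℕ) : ((step F)^[k] B).Nonempty := by
  induction k with
  | zero => exact hB
  | succ k ih =>
    rw [Function.iterate_succ_apply']
    exact step_nonempty hF ih

end basic

/-- compatible metrics and convergent sequences -/
lemma IsCompat.lim {d : X → X → ℝ} (h : IsCompat d) {x : ℕ → X} {p : X}
    (hx : Tendsto x atTop (𝓝 p)) {ε : ℝ} (hε : 0 < ε) : ∃ k, d p (x k) < ε := by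
  have hop : IsOpen {y | d p y < ε} := by
    rw [h.top]
    intro y hy
    refine ⟨ε - d p y, sub_pos.2 hy, fun z hz => ?_⟩
    have := h.tri p y z
    change d p z < ε
    linarith
  have hp : p ∈ {y | d p y < ε} := by
    change d p p < ε
    rw [h.self]
    exact hε
  exact (hx.eventually (hop.mem_nhds hp)).exists

lemma IsCompat.nonneg {d : X → X → ℝ} (h : IsCompat d) (x y : X) : 0 ≤ d x y := by
  have h1 := h.tri x y x
  rw [h.self, h.symm y x] at h1
  linarith

/-- a map with a repelling fixed point has a Lipschitz constant larger than one -/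
lemma one_lt_Lip {f : X → X} {p : X} {x : ℕ → X} (hp : f p = p) (hx : ∀ k, f (x (k + 1)) = x k)
    (hlim : Tendsto x atTop (𝓝 p)) (h0 : x 0 ≠ p) {d : X → X → ℝ} (hd : IsCompat d) :
    1 < Lip f d := by
  by_contra hcon
  rw [not_lt] at hcon
  have hle : ∀ u v, d (f u) (f v) ≤ d u v := by
    intro u v
    by_cases huv : u = v
    · subst huv
      rw [hd.self, hd.self]
    · have h1 : ENNReal.ofReal (d (f u) (f v) / d u v) ≤ Lip f d := by
        unfold Lip
        exact le_iSup_of_le u (le_iSup_of_le v (le_iSup_of_le huv le_rfl))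
      have h2 := h1.trans hcon
      rw [ENNReal.ofReal_le_one] at h2
      have h3 : 0 < d u v := lt_of_le_of_ne (hd.nonneg u v) fun h => huv (hd.eq u v h.symm)
      rwa [div_le_one h3] at h2
  have hk : ∀ k, d p (x 0) ≤ d p (x k) := by
    intro k
    induction k with
    | zero => exact le_rfl
    | succ k ih =>
      refine ih.trans ?_
      have := hle p (x (k + 1))
      rwa [hp, hx] at this
  have hpos : 0 < d p (x 0) :=
    lt_of_le_of_ne (hd.nonneg _ _) fun h => h0 (hd.eq _ _ h.symm).symm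
  obtain ⟨k, hk2⟩ := hd.lim hlim hpos
  exact absurd (hk k) (not_le.2 hk2)

section main

variable (π : X → ℝ) (J : ℝ → X)

/-- the maps of the system -/
noncomputable def GG (i : Fin 4) (x : X) : X := J (fr i (π x))

variable {π J}

theorem main (hπ : Continuous π) (hJ : Isometry J) (hπJ : ∀ t, π (J t) = t) :
    IsIFS (range (GG π J)) ∧ IsAttractor (range (GG π J)) (J '' Icc 0 4) ∧
    basin (range (GG π J)) (J '' Icc 0 4) = univ ∧
    (∀ F' : Set (X → X), F' ⊂ range (GG π J) → ¬ IsAttractor F' (J '' Icc 0 4)) ∧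
    ∀ d : X → X → ℝ, IsCompat d → ∀ f ∈ range (GG π J), 1 < Lip f d := by
  set F := range (GG π J) with hF
  set A := J '' Icc (0 : ℝ) 4 with hA
  have hGJ : ∀ i t, GG π J i (J t) = J (fr i t) := by
    intro i t
    unfold GG
    rw [hπJ]
  have hFne : F.Nonempty := range_nonempty _
  have hifs : IsIFS F := by
    refine ⟨hFne, finite_range _, ?_⟩
    rintro _ ⟨i, rfl⟩
    exact hJ.continuous.comp ((fr_cont i).comp hπ)
  have hmem : ∀ i x, GG π J i x ∈ A := fun i x => ⟨_, aa_mem i (fr_mem i _), rfl⟩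
  have hsub : ∀ B, step F B ⊆ A := by
    intro B z hz
    obtain ⟨_, ⟨i, rfl⟩, b, -, rfl⟩ := mem_step.1 hz
    exact hmem i b
  have hinv : step F A = A := by
    refine Subset.antisymm (hsub A) ?_
    rintro _ ⟨t, ht, rfl⟩
    obtain ⟨i, hi⟩ := cover ht
    obtain ⟨j, -, y, hy, e⟩ := fr_surj i t hi
    exact mem_step.2 ⟨_, ⟨i, rfl⟩, J y, ⟨y, aa_mem j hy, rfl⟩, by rw [hGJ, e]⟩
  -- the iterates are dense
  have hdense : ∀ k : ℕ, ∀ B : Set X, B.Nonempty → ∀ t ∈ Icc (0 : ℝ) 4,
      ∃ s ∈ Icc (0 : ℝ) 4, J s ∈ (step F)^[2 * k + 1] B ∧ |t - s| ≤ 4 * (3 / 4) ^ k := by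
    intro k
    induction k with
    | zero =>
      rintro B ⟨b, hb⟩ t ht
      refine ⟨fr 0 (π b), aa_mem 0 (fr_mem 0 _), ?_, ?_⟩
      · exact mem_step.2 ⟨GG π J 0, ⟨0, rfl⟩, b, hb, rfl⟩
      · have h1 := aa_mem 0 (fr_mem 0 (π b))
        rw [pow_zero, mul_one, abs_le]
        constructor <;> linarith [h1.1, h1.2, ht.1, ht.2]
    | succ k ih =>
      intro B hB t ht
      obtain ⟨i, hi⟩ := cover ht
      obtain ⟨j, hij, y, hy, e⟩ := fr_surj i t hi
      obtain ⟨l, -, z, hz, e2⟩ := fr_surj j y hy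
      obtain ⟨s, hs, hsB, hts⟩ := ih B hB z (aa_mem l hz)
      refine ⟨fr i (fr j s), aa_mem i (fr_mem i _), ?_, ?_⟩
      · rw [show 2 * (k + 1) + 1 = (2 * k + 1) + 1 + 1 by ring, Function.iterate_succ_apply',
          Function.iterate_succ_apply']
        refine mem_step.2 ⟨GG π J i, ⟨i, rfl⟩, J (fr j s), ?_, hGJ _ _⟩
        exact mem_step.2 ⟨GG π J j, ⟨j, rfl⟩, J s, hsB, hGJ _ _⟩
      · rw [← e, ← e2]
        calc |fr i (fr j z) - fr i (fr j s)| ≤ 1 / 2 * |fr j z - fr j s| :=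
              fr_half i j hij _ (fr_mem j z) _ (fr_mem j s)
          _ ≤ 1 / 2 * (3 / 2 * |z - s|) := by gcongr; exact fr_lip j z s
          _ ≤ 1 / 2 * (3 / 2 * (4 * (3 / 4) ^ k)) := by gcongr
          _ = 4 * (3 / 4) ^ (k + 1) := by ring
  have hatt : Attracts F A univ := by
    intro B hB _ _
    rw [Metric.tendsto_atTop]
    intro ε hε
    obtain ⟨K, hK⟩ := exists_pow_lt_of_lt_one (show 0 < ε / 4 by positivity)
      (show (3 / 4 : ℝ) < 1 by norm_num)
    refine ⟨2 * K + 1, fun m hm => ?_⟩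
    obtain ⟨l, rfl⟩ := Nat.exists_eq_add_of_le hm
    have hle : Metric.hausdorffDist ((step F)^[2 * K + 1 + l] B) A ≤ 4 * (3 / 4) ^ K := by
      refine Metric.hausdorffDist_le_of_mem_dist (by positivity) ?_ ?_
      · intro x hx
        refine ⟨x, ?_, by rw [dist_self]; positivity⟩
        rw [show 2 * K + 1 + l = (2 * K + l) + 1 by ring, Function.iterate_succ_apply'] at hx
        exact hsub _ hx
      · rintro _ ⟨t, ht, rfl⟩
        obtain ⟨s, hs, hsB, hts⟩ := hdense K ((step F)^[l] B) (iter_nonempty hFne hB l) t ht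
        refine ⟨J s, ?_, ?_⟩
        · rw [Function.iterate_add_apply]
          exact hsB
        · rw [hJ.dist_eq, Real.dist_eq]
          exact hts
    rw [Real.dist_eq, sub_zero, abs_of_nonneg Metric.hausdorffDist_nonneg]
    linarith
  have hcomp : IsCompact A := isCompact_Icc.image hJ.continuous
  have hAne : A.Nonempty := ⟨J 0, 0, ⟨le_rfl, by norm_num⟩, rfl⟩
  refine ⟨hifs, ⟨hAne, hcomp, hinv, univ, isOpen_univ, subset_univ _, hatt⟩, ?_, ?_, ?_⟩
  · exact eq_univ_of_univ_subset (subset_sUnion_of_mem ⟨isOpen_univ, subset_univ _, hatt⟩)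
  · rintro F' ⟨hF', hne⟩ ⟨-, -, hinv', -⟩
    obtain ⟨_, ⟨i, rfl⟩, hi⟩ := not_subset.1 hne
    have h1 : J (aa i + 1 / 2) ∈ A :=
      ⟨_, aa_mem i ⟨by linarith, by linarith⟩, rfl⟩
    rw [← hinv'] at h1
    obtain ⟨f, hf, b, -, e⟩ := mem_step.1 h1
    obtain ⟨j, rfl⟩ := hF' hf
    have hij : i ≠ j := by
      rintro rfl
      exact hi hf
    have e2 : fr j (π b) = aa i + 1 / 2 := hJ.injective e
    apply aa_sep i j hij
    rw [← e2]
    exact fr_mem j _
  · rintro d hd _ ⟨i, rfl⟩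
    obtain ⟨p, hp⟩ := fr_fix i
    refine one_lt_Lip (p := J p) (x := fun k => J (p + 1 / 5 * (-(2 / 3)) ^ k)) ?_ ?_ ?_ ?_ hd
    · rw [hGJ]
      have := hp 0 (by norm_num)
      rw [add_zero, mul_zero, sub_zero] at this
      rw [this]
    · intro k
      have h1 : |1 / 5 * (-(2 / 3) : ℝ) ^ (k + 1)| ≤ 1 / 5 := by
        rw [abs_mul, abs_pow, abs_neg]
        have h2 : |(2 / 3 : ℝ)| ^ (k + 1) ≤ 1 := by
          rw [abs_of_pos (by norm_num)]
          exact pow_le_one₀ (by norm_num) (by norm_num)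
        rw [abs_of_pos (by norm_num : (0 : ℝ) < 1 / 5)]
        linarith
      rw [hGJ, hp _ h1]
      congr 1
      ring
    · have h1 : Tendsto (fun k : ℕ => p + 1 / 5 * (-(2 / 3) : ℝ) ^ k) atTop (𝓝 (p + 1 / 5 * 0)) :=
        ((tendsto_pow_atTop_nhds_zero_of_abs_lt_one (by
          rw [abs_neg, abs_of_pos] <;> norm_num)).const_mul _).const_add _
      rw [mul_zero, add_zero] at h1
      exact (hJ.continuous.tendsto p).comp h1
    · intro h1
      have h2 := hJ.injective h1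
      norm_num at h2

end main

/-- the theorem in `ℝ^n` -/
theorem mainE (n : ℕ) (hn : 1 ≤ n) : ∃ (F : Set (E n → E n)) (A : Set (E n)),
    IsIFS F ∧ IsAttractor F A ∧ basin F A = univ ∧ (∀ F' ⊂ F, ¬ IsAttractor F' A) ∧
    ∀ d : E n → E n → ℝ, IsCompat d → ∀ f ∈ F, 1 < Lip f d := by
  let i₀ : Fin n := ⟨0, hn⟩
  have h := main (X := E n) (π := fun x => x i₀) (J := fun t => EuclideanSpace.single i₀ t)
    (by fun_prop) (Isometry.of_dist_eq fun s t => EuclideanSpace.dist_single_same i₀ s t)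
    (fun t => by simp)
  exact ⟨_, _, h.1, h.2.1, h.2.2.1, fun F' hF' => h.2.2.2.1 F' hF', h.2.2.2.2⟩

end Pool.Agent.W_b8546e_h58
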