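import Pool.Agent.W_b8546e_h58.Defs

/-!
Four maps of the line.
-/

open Set Filter Topology

namespace Pool.Agent.W_b8546e_h58

/-- the basic piecewise linear function -/
noncomputable def hh (t : ℝ) : ℝ := min 1 (max (-(3 / 2) * t) (t / 2))

lemma hh_nonneg (t : ℝ) : 0 ≤ hh t := by
  unfold hh
  refine le_min zero_le_one ?_
  rcases le_total 0 t with h | h
  · exact (by linarith : 0 ≤ t / 2).trans (le_max_right _ _)
  · exact (by linarith : 0 ≤ -(3 / 2) * t).trans (le_max_left _ _)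

lemma hh_le (t : ℝ) : hh t ≤ 1 := min_le_left _ _

lemma hh_pos {t : ℝ} (h : 0 ≤ t) : hh t = min 1 (t / 2) := by
  unfold hh
  rw [max_eq_right (by linarith)]

lemma hh_neg {t : ℝ} (h : t ≤ 0) : hh t = min 1 (-(3 / 2) * t) := by
  unfold hh
  rw [max_eq_left (by linarith)]

lemma hh_far {t : ℝ} (h : t ≤ -1) : hh t = 1 := by
  rw [hh_neg (by linarith), min_eq_left (by linarith)]

lemma hh_lin {t : ℝ} (h : t ≤ 0) (h' : -(2 / 3) ≤ t) : hh t = -(3 / 2) * t := by
  rw [hh_neg h, min_eq_right (by linarith)]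

lemma hh_half {t : ℝ} (h : 0 ≤ t) (h' : t ≤ 1) : hh (2 * t) = t := by
  rw [hh_pos (by linarith), min_eq_right (by linarith)]
  ring

lemma abs_min_le (a b : ℝ) : |min 1 a - min 1 b| ≤ |a - b| := by
  have h1 := abs_min_sub_min_le_max 1 a 1 b
  simpa using h1

lemma hh_lip_half {s t : ℝ} (hs : 0 ≤ s) (ht : 0 ≤ t) : |hh s - hh t| ≤ 1 / 2 * |s - t| := by
  rw [hh_pos hs, hh_pos ht]
  refine (abs_min_le _ _).trans ?_
  rw [show s / 2 - t / 2 = 1 / 2 * (s - t) by ring, abs_mul]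
  norm_num

lemma hh_lip (s t : ℝ) : |hh s - hh t| ≤ 3 / 2 * |s - t| := by
  unfold hh
  refine (abs_min_le _ _).trans ?_
  refine (abs_max_sub_max_le_max _ _ _ _).trans (max_le ?_ ?_)
  · rw [show -(3 / 2) * s - -(3 / 2) * t = -(3 / 2) * (s - t) by ring, abs_mul]
    norm_num
  · rw [show s / 2 - t / 2 = 1 / 2 * (s - t) by ring, abs_mul]
    have := abs_nonneg (s - t)
    rw [abs_of_pos (by norm_num : (0 : ℝ) < 1 / 2)]
    linarith

lemma hh_cont : Continuous hh := by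
  unfold hh
  fun_prop

/-- left end points -/
noncomputable def aa : Fin 4 → ℝ := ![0, 1, 2, 3]

/-- the four maps -/
noncomputable def fr : Fin 4 → ℝ → ℝ :=
  ![fun x => hh (x - 1), fun x => 1 + hh (x - 2), fun x => 3 - hh (2 - x), fun x => 4 - hh (3 - x)]

lemma fr0 (x : ℝ) : fr 0 x = hh (x - 1) := rfl
lemma fr1 (x : ℝ) : fr 1 x = 1 + hh (x - 2) := rfl
lemma fr2 (x : ℝ) : fr 2 x = 3 - hh (2 - x) := rfl
lemma fr3 (x : ℝ) : fr 3 x = 4 - hh (3 - x) := rfl
lemma aa0 : aa 0 = 0 := rfl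
lemma aa1 : aa 1 = 1 := rfl
lemma aa2 : aa 2 = 2 := rfl
lemma aa3 : aa 3 = 3 := rfl

lemma all4 {P : Fin 4 → Prop} (h0 : P 0) (h1 : P 1) (h2 : P 2) (h3 : P 3) (i : Fin 4) : P i := by
  fin_cases i
  · exact h0
  · exact h1
  · exact h2
  · exact h3

lemma fr_cont : ∀ i : Fin 4, Continuous (fr i) := by
  apply all4
  · exact hh_cont.comp (by fun_prop)
  · exact continuous_const.add (hh_cont.comp (by fun_prop))
  · exact continuous_const.sub (hh_cont.comp (by fun_prop))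
  · exact continuous_const.sub (hh_cont.comp (by fun_prop))

lemma fr_mem : ∀ (i : Fin 4) (x : ℝ), fr i x ∈ Icc (aa i) (aa i + 1) := by
  apply all4
  · intro x
    rw [fr0, aa0]
    exact ⟨hh_nonneg _, by linarith [hh_le (x - 1)]⟩
  · intro x
    rw [fr1, aa1]
    exact ⟨by linarith [hh_nonneg (x - 2)], by linarith [hh_le (x - 2)]⟩
  · intro x
    rw [fr2, aa2]
    exact ⟨by linarith [hh_le (2 - x)], by linarith [hh_nonneg (2 - x)]⟩
  · intro x
    rw [fr3, aa3]
    exact ⟨by linarith [hh_le (3 - x)], by linarith [hh_nonneg (3 - x)]⟩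

lemma aa_mem : ∀ (i : Fin 4), Icc (aa i) (aa i + 1) ⊆ Icc (0 : ℝ) 4 := by
  apply all4
  · rw [aa0]; exact Icc_subset_Icc (by norm_num) (by norm_num)
  · rw [aa1]; exact Icc_subset_Icc (by norm_num) (by norm_num)
  · rw [aa2]; exact Icc_subset_Icc (by norm_num) (by norm_num)
  · rw [aa3]; exact Icc_subset_Icc (by norm_num) (by norm_num)

lemma cover {t : ℝ} (ht : t ∈ Icc (0 : ℝ) 4) : ∃ i : Fin 4, t ∈ Icc (aa i) (aa i + 1) := by
  obtain ⟨h0, h4⟩ := ht
  rcases le_total t 1 with h | h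
  · exact ⟨0, by rw [aa0]; exact ⟨h0, by linarith⟩⟩
  rcases le_total t 2 with h' | h'
  · exact ⟨1, by rw [aa1]; exact ⟨h, by linarith⟩⟩
  rcases le_total t 3 with h'' | h''
  · exact ⟨2, by rw [aa2]; exact ⟨h', by linarith⟩⟩
  · exact ⟨3, by rw [aa3]; exact ⟨h'', by linarith⟩⟩

lemma fr_lip : ∀ (i : Fin 4) (x y : ℝ), |fr i x - fr i y| ≤ 3 / 2 * |x - y| := by
  apply all4
  · intro x y
    rw [fr0, fr0]
    have := hh_lip (x - 1) (y - 1)
    rwa [sub_sub_sub_cancel_right] at this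
  · intro x y
    rw [fr1, fr1]
    have := hh_lip (x - 2) (y - 2)
    rw [sub_sub_sub_cancel_right] at this
    rwa [add_sub_add_left_eq_sub]
  · intro x y
    rw [fr2, fr2, sub_sub_sub_cancel_left]
    have := hh_lip (2 - y) (2 - x)
    rwa [sub_sub_sub_cancel_left] at this
  · intro x y
    rw [fr3, fr3, sub_sub_sub_cancel_left]
    have := hh_lip (3 - y) (3 - x)
    rwa [sub_sub_sub_cancel_left] at this

/-- outside of its own interval the map `fr i` halves the distances -/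
lemma fr_half : ∀ (i j : Fin 4), i ≠ j → ∀ x ∈ Icc (aa j) (aa j + 1), ∀ y ∈ Icc (aa j) (aa j + 1),
    |fr i x - fr i y| ≤ 1 / 2 * |x - y| := by
  have key : ∀ s t u v : ℝ, 0 ≤ s → 0 ≤ t → |s - t| = |u - v| →
      |hh s - hh t| ≤ 1 / 2 * |u - v| := by
    intro s t u v hs ht e
    rw [← e]
    exact hh_lip_half hs ht
  have far : ∀ s t u v : ℝ, s ≤ -1 → t ≤ -1 → |hh s - hh t| ≤ 1 / 2 * |u - v| := by
    intro s t u v hs ht
    rw [hh_far hs, hh_far ht, sub_self, abs_zero]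
    positivity
  have k1 : ∀ c x y : ℝ, c ≤ x → c ≤ y → |hh (x - c) - hh (y - c)| ≤ 1 / 2 * |x - y| := by
    intro c x y hx hy
    exact key _ _ _ _ (by linarith) (by linarith) (by rw [sub_sub_sub_cancel_right])
  have k2 : ∀ c x y : ℝ, x ≤ c → y ≤ c → |hh (c - y) - hh (c - x)| ≤ 1 / 2 * |x - y| := by
    intro c x y hx hy
    exact key _ _ _ _ (by linarith) (by linarith) (by rw [sub_sub_sub_cancel_left])
  intro i j hij x hx y hy
  obtain ⟨x1, x2⟩ := hx
  obtain ⟨y1, y2⟩ := hy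
  revert i
  refine all4 ?_ ?_ ?_ ?_ <;> intro hij <;> revert j <;> refine all4 ?_ ?_ ?_ ?_ <;>
    intro x1 x2 y1 y2 hij <;>
    simp only [aa0, aa1, aa2, aa3] at x1 x2 y1 y2 <;>
    first
    | exact absurd rfl hij
    | (rw [fr0, fr0]; exact k1 1 x y (by linarith) (by linarith))
    | (rw [fr1, fr1, add_sub_add_left_eq_sub]; exact k1 2 x y (by linarith) (by linarith))
    | (rw [fr1, fr1, add_sub_add_left_eq_sub]; exact far _ _ x y (by linarith) (by linarith))
    | (rw [fr2, fr2, sub_sub_sub_cancel_left]; exact k2 2 x y (by linarith) (by linarith))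
    | (rw [fr2, fr2, sub_sub_sub_cancel_left]; exact far _ _ x y (by linarith) (by linarith))
    | (rw [fr3, fr3, sub_sub_sub_cancel_left]; exact k2 3 x y (by linarith) (by linarith))

/-- the other intervals are mapped onto the interval `i` -/
lemma fr_surj : ∀ (i : Fin 4), ∀ z ∈ Icc (aa i) (aa i + 1), ∃ j : Fin 4, i ≠ j ∧
    ∃ y ∈ Icc (aa j) (aa j + 1), fr i y = z := by
  apply all4
  · rintro z ⟨h0, h1⟩
    rw [aa0] at h0 h1
    have e : fr 0 (2 * z + 1) = z := by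
      rw [fr0, add_sub_cancel_right, hh_half h0 (by linarith)]
    rcases le_total (2 * z + 1) 2 with h | h
    · exact ⟨1, by decide, _, by rw [aa1]; exact ⟨by linarith, by linarith⟩, e⟩
    · exact ⟨2, by decide, _, by rw [aa2]; exact ⟨by linarith, by linarith⟩, e⟩
  · rintro z ⟨h0, h1⟩
    rw [aa1] at h0 h1
    have e : fr 1 (2 * (z - 1) + 2) = z := by
      rw [fr1, add_sub_cancel_right, hh_half (by linarith) (by linarith)]
      ring
    rcases le_total (2 * (z - 1) + 2) 3 with h | h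
    · exact ⟨2, by decide, _, by rw [aa2]; exact ⟨by linarith, by linarith⟩, e⟩
    · exact ⟨3, by decide, _, by rw [aa3]; exact ⟨by linarith, by linarith⟩, e⟩
  · rintro z ⟨h0, h1⟩
    rw [aa2] at h0 h1
    have e : fr 2 (2 - 2 * (3 - z)) = z := by
      rw [fr2, sub_sub_cancel, hh_half (by linarith) (by linarith)]
      ring
    rcases le_total (2 - 2 * (3 - z)) 1 with h | h
    · exact ⟨0, by decide, _, by rw [aa0]; exact ⟨by linarith, by linarith⟩, e⟩
    · exact ⟨1, by decide, _, by rw [aa1]; exact ⟨by linarith, by linarith⟩, e⟩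
  · rintro z ⟨h0, h1⟩
    rw [aa3] at h0 h1
    have e : fr 3 (3 - 2 * (4 - z)) = z := by
      rw [fr3, sub_sub_cancel, hh_half (by linarith) (by linarith)]
      ring
    rcases le_total (3 - 2 * (4 - z)) 2 with h | h
    · exact ⟨1, by decide, _, by rw [aa1]; exact ⟨by linarith, by linarith⟩, e⟩
    · exact ⟨2, by decide, _, by rw [aa2]; exact ⟨by linarith, by linarith⟩, e⟩

/-- a fixed point which is repelling -/
lemma fr_fix : ∀ i : Fin 4, ∃ p : ℝ, ∀ u : ℝ, |u| ≤ 1 / 5 → fr i (p + u) = p - 3 / 2 * u := by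
  apply all4
  · refine ⟨3 / 5, fun u hu => ?_⟩
    obtain ⟨h1, h2⟩ := abs_le.1 hu
    rw [fr0, hh_lin (by linarith) (by linarith)]
    ring
  · refine ⟨8 / 5, fun u hu => ?_⟩
    obtain ⟨h1, h2⟩ := abs_le.1 hu
    rw [fr1, hh_lin (by linarith) (by linarith)]
    ring
  · refine ⟨12 / 5, fun u hu => ?_⟩
    obtain ⟨h1, h2⟩ := abs_le.1 hu
    rw [fr2, hh_lin (by linarith) (by linarith)]
    ring
  · refine ⟨17 / 5, fun u hu => ?_⟩
    obtain ⟨h1, h2⟩ := abs_le.1 hu
    rw [fr3, hh_lin (by linarith) (by linarith)]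
    ring

/-- the open intervals are disjoint from the other images -/
lemma aa_sep : ∀ (i j : Fin 4), i ≠ j → aa i + 1 / 2 ∉ Icc (aa j) (aa j + 1) := by
  refine all4 ?_ ?_ ?_ ?_ <;> refine all4 ?_ ?_ ?_ ?_ <;> rintro hij ⟨h1, h2⟩ <;>
    simp only [aa0, aa1, aa2, aa3] at h1 h2 <;>
    first
    | exact absurd rfl hij
    | linarith

end Pool.Agent.W_b8546e_h58
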